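import Pool.Agent.H6.FIB.TargetsG

/-!
# Row ALQ of the board fib_modules: the groups between `PSL(2, q)` and `PGL(2, q)` are almost
simple
-/

set_option autoImplicit false

open scoped Classical
open FI AMc AMt

namespace Pool.Agent.H72.FIB

theorem pf_ALQ (h1 : T_CRD) (h2 : T_SLG) (h3 : T_UBF) : T_ALQ := by
  intro q A _ _ f hq h7 hf hR
  obtain ⟨hfin, hcard, hidx, hnor⟩ := h1 q hq h7
  haveI := hfin
  haveI := hnor
  have key : ∀ N : Subgroup A, (∀ s ∈ (PS q).comap f, ∀ n ∈ N, s * n * s⁻¹ ∈ N) → N ≠ ⊥ →
      (PS q).comap f ≤ N := by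
    intro N hN hN0
    have h4 : PS q ≤ N.map f := by
      apply h2 q hq h7
      · intro s hs n hn
        obtain ⟨a, rfl⟩ := hR hs
        obtain ⟨n', hn', rfl⟩ := Subgroup.mem_map.1 hn
        refine Subgroup.mem_map.2 ⟨a * n' * a⁻¹, hN a (Subgroup.mem_comap.2 hs) n' hn', ?_⟩
        simp
      · intro h5
        exact hN0 ((Subgroup.map_eq_bot_iff_of_injective N hf).1 h5)
    calc (PS q).comap f ≤ (N.map f).comap f := Subgroup.comap_mono h4
      _ = N := Subgroup.comap_map_eq_self_of_injective hf N
  refine ⟨hnor.comap f, ?_, ?_, ?_, ?_⟩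
  · intro N hN hN0
    exact key N (fun s _ n hn => hN.conj_mem n hn s) hN0
  · intro N hNS hN
    by_cases h : N = ⊥
    · exact Or.inl h
    · exact Or.inr (le_antisymm hNS (key N hN h))
  · by_contra hcon
    push Not at hcon
    obtain ⟨U, B, hUB⟩ := h3 q hq h7
    have hcS : Nat.card (PS q) * 2 = q * (q * q - 1) := by
      have h4 := Subgroup.card_mul_index (PS q)
      rw [hidx, hcard] at h4
      exact h4
    have hex : ∃ a ∈ PS q, a ∉ B := by
      by_contra hle
      push Not at hle
      have hle' : PS q ≤ B := fun x hx => hle x hx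
      have h5 := hUB.crS
      rw [inf_eq_right.2 hle'] at h5
      have h6 : q * (q - 1) = q * (q * q - 1) := by rw [← h5, ← hcS]; ring
      have h7' := Nat.eq_of_mul_eq_mul_left hq.pos h6
      have h8 : q < q * q := by nlinarith
      omega
    obtain ⟨a, haS, haB⟩ := hex
    have hU : U = ⊥ := by
      rw [eq_bot_iff]
      intro u hu
      have huS : u ∈ PS q := hUB.US hu
      obtain ⟨x, rfl⟩ := hR haS
      obtain ⟨y, rfl⟩ := hR huS
      have hxy := hcon x (Subgroup.mem_comap.2 haS) y (Subgroup.mem_comap.2 huS)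
      have h9 : f x * f y * (f x)⁻¹ = f y := by
        rw [← map_mul, hxy, map_mul, mul_assoc, mul_inv_cancel, mul_one]
      have := hUB.ti (f x) haB (f y) hu (by rw [h9]; exact hu)
      exact Subgroup.mem_bot.2 this
    have h10 := hUB.crU
    rw [hU, Subgroup.card_bot] at h10
    omega
  · have h11 : (PS q).relIndex f.range * f.range.index = 2 := by
      rw [Subgroup.relIndex_mul_index hR, hidx]
    have h12 : ((PS q).comap f).index ∣ 2 := by
      rw [Subgroup.index_comap]
      exact ⟨_, h11.symm⟩
    rcases (Nat.dvd_prime Nat.prime_two).1 h12 with h | h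
    · exact Or.inl h
    · right
      rw [h]
      exact Nat.prime_two

end Pool.Agent.H72.FIB
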